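import Pool.Agent.H92.OD.Targets

/-!
# DCO: a derivation applied to the coefficients
-/

set_option autoImplicit false

namespace Pool.Agent.H16.OD

open MvPolynomial Filter Pool.Agent.H92.OD

variable {k F : Type} [Field k] [Field F] [Algebra k F] [CharZero k] [CharZero F]

/-- apply the derivation to all coefficients -/
noncomputable def dl (δ : Derivation k F F) (y : HS F) : HS F :=
  { coeff := fun r => δ (cf y r)
    isPWO_support' := (HahnSeries.isPWO_support (y : HahnSeries ℚ F)).mono fun r hr h => hr (by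
      show δ (cf y r) = 0
      have h' : cf y r = 0 := h
      rw [h', map_zero]) : HahnSeries ℚ F }

omit [CharZero k] [CharZero F] in
@[simp] theorem cf_dl (δ : Derivation k F F) (y : HS F) (r : ℚ) : cf (dl δ y) r = δ (cf y r) := rfl

omit [CharZero k] [CharZero F] in
theorem dl_add (δ : Derivation k F F) (x y : HS F) : dl δ (x + y) = dl δ x + dl δ y := by
  refine hs_ext fun r => ?_
  rw [cf_dl, cf_add, cf_add, map_add, cf_dl, cf_dl]

omit [CharZero k] [CharZero F] in
theorem dl_mul (δ : Derivation k F F) (x y : HS F) : dl δ (x * y) = x * dl δ y + y * dl δ x := by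
  refine hs_ext fun r => ?_
  have hx := HahnSeries.isPWO_support (x : HahnSeries ℚ F)
  have hy := HahnSeries.isPWO_support (y : HahnSeries ℚ F)
  have sx : HahnSeries.support (dl δ x : HahnSeries ℚ F) ⊆
      HahnSeries.support (x : HahnSeries ℚ F) :=
    fun r hr h => hr (by
      show δ (cf x r) = 0
      have h' : cf x r = 0 := h
      rw [h', map_zero])
  have sy : HahnSeries.support (dl δ y : HahnSeries ℚ F) ⊆
      HahnSeries.support (y : HahnSeries ℚ F) :=
    fun r hr h => hr (by
      show δ (cf y r) = 0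
      have h' : cf y r = 0 := h
      rw [h', map_zero])
  have e1 : cf (x * y) r = ∑ ij ∈ Finset.antidiagonal hx hy r, cf x ij.1 * cf y ij.2 :=
    HahnSeries.coeff_mul
  have e2 : cf (x * dl δ y) r = ∑ ij ∈ Finset.antidiagonal hx hy r, cf x ij.1 * cf (dl δ y) ij.2 :=
    HahnSeries.coeff_mul_right' hy sy
  have e3 : cf (dl δ x * y) r = ∑ ij ∈ Finset.antidiagonal hx hy r, cf (dl δ x) ij.1 * cf y ij.2 :=
    HahnSeries.coeff_mul_left' hx sx
  rw [mul_comm y (dl δ x), cf_add, cf_dl, e1, e2, e3, ← Finset.sum_add_distrib, map_sum]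
  refine Finset.sum_congr rfl fun ij hij => ?_
  rw [Derivation.leibniz, cf_dl, cf_dl, smul_eq_mul, smul_eq_mul]
  ring

omit [CharZero k] [CharZero F] in
theorem dl_sg (δ : Derivation k F F) (r : ℚ) (c : F) : dl δ (sg r c) = sg r (δ c) := by
  refine hs_ext fun s => ?_
  rw [cf_dl, cf_sg, cf_sg]
  split_ifs with h
  · rfl
  · rw [map_zero]

omit [CharZero k] [CharZero F] in
theorem sg_zero' (r : ℚ) : sg r (0 : F) = 0 := HahnSeries.single_eq_zero

theorem dl_DF (δ : Derivation k F F) (y : HS F) : dl δ (DF y) = DF (dl δ y) := by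
  refine hs_ext fun r => ?_
  rw [cf_dl, cf_DF, cf_DF, cf_dl]
  exact map_rat_smul δ r (cf y r)

theorem dl_ev (δ : Derivation k F F) (Φ : MvPolynomial (Fin 3) k) (y : HS F) :
    dl δ (ev Φ y) = ev (pderiv 1 Φ) y * dl δ y + ev (pderiv 2 Φ) y * DF (dl δ y) := by
  induction Φ using MvPolynomial.induction_on with
  | C a =>
    unfold ev
    rw [pderiv_C, pderiv_C, map_zero, zero_mul, zero_mul, algHom_C, algebraMap_HS, dl_sg,
      Derivation.map_algebraMap, sg_zero', add_zero]
  | add p q hp hq =>
    unfold ev at hp hq ⊢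
    simp only [map_add, dl_add, hp, hq]
    ring
  | mul_X p i hp =>
    unfold ev at hp ⊢
    rw [map_mul, dl_mul, hp, Derivation.leibniz, Derivation.leibniz]
    simp only [smul_eq_mul, map_add, map_mul, aeval_X]
    have hX : ∀ j : Fin 3, dl δ ((![uu F, y, DF y] : Fin 3 → HS F) j) =
        aeval ![uu F, y, DF y] (pderiv 1 (X j : MvPolynomial (Fin 3) k)) * dl δ y +
        aeval ![uu F, y, DF y] (pderiv 2 (X j : MvPolynomial (Fin 3) k)) * DF (dl δ y) := by
      intro j
      fin_cases j
      · rw [pderiv_X, pderiv_X]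
        simp [uu, dl_sg, sg_zero']
      · rw [pderiv_X, pderiv_X]
        simp
      · rw [pderiv_X, pderiv_X]
        simp [dl_DF]
    rw [hX i]
    ring

theorem pf_DCO : T_DCO := by
  intro k F _ _ _ _ _ δ Φ y y' h r
  have e : y' = dl δ y := hs_ext h
  rw [← cf_dl, dl_ev, e]

end Pool.Agent.H16.OD
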