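import Pool.Agent.H92.OD.Targets

/-!
# LIN: the linearised equation
-/

set_option autoImplicit false

namespace Pool.Agent.H16.OD

open MvPolynomial Filter Pool.Agent.H92.OD

theorem ev_ringHom {k : Type} [Field k] [CharZero k] (σ : HS k →+* HS k)
    (h1 : ∀ c : k, σ (algebraMap k (HS k) c) = algebraMap k (HS k) c) (h2 : σ (uu k) = uu k)
    (h3 : ∀ y, σ (DF y) = DF (σ y)) (Φ : MvPolynomial (Fin 3) k) (y : HS k) :
    ev Φ (σ y) = σ (ev Φ y) := by
  unfold ev
  induction Φ using MvPolynomial.induction_on with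
  | C a => rw [algHom_C, algHom_C, h1]
  | add p q hp hq => rw [map_add, map_add, map_add, hp, hq]
  | mul_X p i hp =>
    rw [map_mul, map_mul, map_mul, hp, aeval_X, aeval_X]
    congr 1
    fin_cases i
    · exact h2.symm
    · rfl
    · exact (h3 y).symm

theorem evD_mem {k L : Type} [Field k] [CharZero k] [Field L] [Algebra k L] (D : Derivation k L L)
    (u y : L) (Φ : MvPolynomial (Fin 3) k) : evD D u Φ y ∈ EE D u y := by
  unfold evD
  have hmem : ∀ i, (![u, y, D y] : Fin 3 → L) i ∈ EE D u y := by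
    intro i
    unfold EE
    refine IntermediateField.subset_adjoin k _ ?_
    fin_cases i
    · simp
    · simp
    · simp
  induction Φ using MvPolynomial.induction_on with
  | C a => rw [algHom_C]; exact (EE D u y).algebraMap_mem a
  | add p q hp hq => rw [map_add]; exact add_mem hp hq
  | mul_X p i hp => rw [map_mul, aeval_X]; exact mul_mem hp (hmem i)

theorem ev_zero {k : Type} [Field k] [CharZero k] (y : HS k) :
    ev (0 : MvPolynomial (Fin 3) k) y = 0 := map_zero _

theorem pf_LIN (hTAY : T_TAY) (hBAL : T_BAL) (hCHI : T_CHI) (hSTD : T_STD) : T_LIN := by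
  classical
  intro k _ _ _ 𝒰 y s Q hS hs
  obtain ⟨s0, c, h0, hc0, hc1, hc2, -, hA⟩ := hTAY k Q hS.nz
  set e1 : Fin 2 →₀ ℕ := Finsupp.single 0 1 with he1
  set e2 : Fin 2 →₀ ℕ := Finsupp.single 1 1 with he2
  let g : (Fin 2 →₀ ℕ) → Gm 𝒰 (HS k) := fun m => evD DG (ug 𝒰 k) (c m) (gm y)
  have hg : ∀ m, g m = gm fun j => ev (c m) (y j) := fun m => evD_gm (c m) y
  have hw : ∀ m, ∃ r : ℚ, g m ≠ 0 → StO (g m) r := by
    intro m
    by_cases h : g m = 0
    · exact ⟨0, fun h' => absurd h h'⟩
    · obtain ⟨r, hr⟩ := hSTD k 𝒰 y s Q hS (g m) (evD_mem _ _ _ _) h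
      exact ⟨r, fun _ => hr⟩
  choose w hw using hw
  have hE : ∀ m, ∀ᶠ j in (𝒰 : Filter ℕ), (g m = 0 → ev (c m) (y j) = 0) ∧
      (g m ≠ 0 → IsO (ev (c m) (y j)) (w m)) := by
    intro m
    by_cases h : g m = 0
    · have h1 := h
      rw [hg, gm_eq_zero_iff] at h1
      filter_upwards [h1] with j hj
      exact ⟨fun _ => hj, fun h' => absurd h h'⟩
    · have h1 := hw m h
      rw [hg, StO_gm] at h1
      filter_upwards [h1] with j hj
      exact ⟨fun h' => absurd h' h, fun _ => hj⟩
  have hE' : ∀ᶠ j in (𝒰 : Filter ℕ), ∀ m ∈ s0, (g m = 0 → ev (c m) (y j) = 0) ∧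
      (g m ≠ 0 → IsO (ev (c m) (y j)) (w m)) := by
    rw [eventually_all_finset]
    intro m _
    exact hE m
  -- one of the first derivatives does not vanish
  obtain ⟨e, hee, hge⟩ : ∃ e : Fin 2 →₀ ℕ, d2 e = 1 ∧ g e ≠ 0 := by
    rcases hS.der with h | h
    · refine ⟨e1, by simp [he1, d2], ?_⟩
      show evD DG (ug 𝒰 k) (c e1) (gm y) ≠ 0
      rw [hc1]; exact h
    · refine ⟨e2, by simp [he2, d2], ?_⟩
      show evD DG (ug 𝒰 k) (c e2) (gm y) ≠ 0
      rw [hc2]; exact h
  have hes0 : e ∈ s0 := by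
    by_contra h
    apply hge
    show evD DG (ug 𝒰 k) (c e) (gm y) = 0
    rw [h0 e h]
    exact map_zero _
  let N : ℚ := ∑ m ∈ s0, |w e - w m|
  have hN0 : 0 ≤ N := Finset.sum_nonneg fun m _ => abs_nonneg _
  have hN : ∀ m ∈ s0, w e - w m ≤ N := fun m hm =>
    (le_abs_self _).trans (Finset.single_le_sum (f := fun m => |w e - w m|)
      (fun m _ => abs_nonneg _) hm)
  refine ⟨w e1, ?_⟩
  filter_upwards [hE', hs N, hS.sol] with j hj hsj hsol
  obtain ⟨A, hAc, hAe⟩ := hA (y j)
  obtain ⟨σ, σ1, σ2, σ3, σ4⟩ := hCHI k j.factorial (s j) j.factorial_pos (hS.out j)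
  set t : HS k := σ (y j) - y j with ht
  have htO : IsO t (s j) := σ4 (y j) (hS.ne j) (hS.low j)
  have hev : eval ![t, DF t] A = 0 := by
    rw [hAe t, ht, add_sub_cancel, ev_ringHom σ σ1 σ2 σ3, hsol, map_zero]
  have hsupp : ∀ m ∈ A.support, m ∈ s0 ∧ IsO (coeff m A) (w m) := by
    intro m hm
    rw [mem_support_iff, hAc] at hm
    have hm0 : m ∈ s0 := by
      by_contra h
      exact hm (by rw [h0 m h, ev_zero])
    refine ⟨hm0, ?_⟩
    rw [hAc]
    exact (hj m hm0).2 fun h => hm ((hj m hm0).1 h)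
  have heA : e ∈ A.support := by
    rw [mem_support_iff, hAc]
    exact ((hj e hes0).2 hge).ne_zero
  have hA0 : A ≠ 0 := by
    intro h
    rw [h] at heA
    simp at heA
  obtain ⟨M, hMne, hMs, ⟨ν, hν1, hν2⟩, hsum⟩ :=
    hBAL k A t (s j) w htO (fun m hm => (hsupp m hm).2) hA0 hev
  have hνe : ν ≤ w e + s j := by
    by_cases h : e ∈ M
    · have := hν1 e h
      rw [hee] at this
      push_cast at this
      linarith
    · have := hν2 e heA h
      rw [hee] at this
      push_cast at this
      linarith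
  have hs0 : 0 < s j := lt_of_le_of_lt hN0 hsj
  have hM1 : ∀ m ∈ M, m = e1 ∨ m = e2 := by
    intro m hm
    have h1 := hν1 m hm
    obtain ⟨hms0, hmO⟩ := hsupp m (hMs hm)
    have h2 := hN m hms0
    have hd : d2 m < 2 := by
      by_contra hcon
      have h3 : (2 : ℚ) ≤ d2 m := by exact_mod_cast not_lt.1 hcon
      have h4 : 2 * s j ≤ d2 m * s j := mul_le_mul_of_nonneg_right h3 hs0.le
      linarith
    have hd' : d2 m ≠ 0 := by
      intro h
      have hm0 : m = 0 := by
        unfold d2 at h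
        ext i
        fin_cases i
        · simp; omega
        · simp; omega
      apply hmO.ne_zero
      rw [hAc, hm0, hc0, hsol]
    unfold d2 at hd hd'
    by_cases h : m 0 = 1
    · left
      ext i
      fin_cases i
      · simp [he1, h]
      · simp [he1]; omega
    · right
      ext i
      fin_cases i
      · simp [he2]; omega
      · simp [he2]; omega
  have x0 : cf t (s j) ≠ 0 := htO.1
  have hsk : (s j : k) ≠ 0 := by
    exact_mod_cast hs0.ne'
  have hne12 : e1 ≠ e2 := by
    intro h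
    have := DFunLike.congr_fun h 0
    simp [he1, he2] at this
  have d1 : d2 e1 = 1 := by simp [he1, d2]
  have d2' : d2 e2 = 1 := by simp [he2, d2]
  have v1 : e1 1 = 0 := by simp [he1]
  have v2 : e2 1 = 1 := by simp [he2]
  have k1 : e1 ∈ M := by
    by_contra hn
    have hM : M = {e2} := by
      obtain ⟨m, hm⟩ := hMne
      ext x
      rw [Finset.mem_singleton]
      constructor
      · intro hx
        rcases hM1 x hx with h | h
        · exact absurd (h ▸ hx) hn
        · exact h
      · rintro rfl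
        rcases hM1 m hm with h | h
        · exact absurd (h ▸ hm) hn
        · exact h ▸ hm
    rw [hM, Finset.sum_singleton, d2', v2, pow_one, pow_one] at hsum
    have := (hsupp e2 (hMs (by rw [hM]; exact Finset.mem_singleton_self _))).2.1
    exact mul_ne_zero (mul_ne_zero this hsk) x0 hsum
  have k2 : e2 ∈ M := by
    by_contra hn
    have hM : M = {e1} := by
      ext x
      rw [Finset.mem_singleton]
      constructor
      · intro hx
        rcases hM1 x hx with h | h
        · exact h
        · exact absurd (h ▸ hx) hn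
      · rintro rfl
        exact k1
    rw [hM, Finset.sum_singleton, d1, v1, pow_one, pow_zero, mul_one] at hsum
    have := (hsupp e1 (hMs (by rw [hM]; exact Finset.mem_singleton_self _))).2.1
    exact mul_ne_zero this x0 hsum
  have hM : M = {e1, e2} := by
    ext x
    rw [Finset.mem_insert, Finset.mem_singleton]
    constructor
    · exact hM1 x
    · rintro (rfl | rfl)
      · exact k1
      · exact k2
  have hw12 : w e2 = w e1 := by
    have a1 := hν1 e1 k1
    have a2 := hν1 e2 k2
    rw [d1] at a1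
    rw [d2'] at a2
    linarith
  rw [hM, Finset.sum_pair hne12, d1, d2', v1, v2, pow_one, pow_zero, mul_one, pow_one,
    ← add_mul] at hsum
  have hsum' := (mul_eq_zero.1 hsum).resolve_right x0
  have o1 := (hsupp e1 (hMs k1)).2
  have o2 := (hsupp e2 (hMs k2)).2
  rw [hAc, hc1] at o1
  rw [hAc, hc2] at o2
  rw [hAc, hAc, hc1, hc2] at hsum'
  rw [hw12] at o2 hsum'
  refine ⟨o1.2, o2.2, o2.1, ?_⟩
  rw [mul_comm (s j : k)]
  exact hsum'

end Pool.Agent.H16.OD
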